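import Pool.Agent.Helper15.BR.Defs
import Pool.Agent.Helper28.BR.Defs

/-!
# BR, front end: algebras over polynomial rings, unramified at a prime element
-/

set_option autoImplicit false

namespace Pool.Agent.Helper10.BR

open TensorProduct

/-- The `R`-algebra `A` is unramified at the prime ideal `p` of the domain `R`: with the local ring
`O` of `R` at `p` and the fraction field `F` of `R`, the `F`-algebra `F ⊗ A` comes from an Azumaya
algebra `B` over `O`. -/
def Unram (R : Type) [CommRing R] (p : Ideal R) (A : Type) [Ring A] [Algebra R A] : Prop :=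
  ∃ (O F B : Type) (_ : CommRing O) (_ : Field F) (_ : Ring B) (_ : Algebra R O) (_ : Algebra R F)
    (_ : Algebra O F) (_ : Algebra O B) (_ : p.IsPrime), IsScalarTower R O F ∧
    IsLocalization.AtPrime O p ∧ IsFractionRing R F ∧ IsAzumaya O B ∧
    Nonempty (F ⊗[O] B ≃ₐ[F] F ⊗[R] A)

attribute [local instance] MvPolynomial.algebraMvPolynomial in
/-- The algebra `A` over `K[t]` is unramified at the prime element `P` of `C[t]`, where `C` is a
field containing `K`. -/
def UnrAt {K C : Type} [Field K] [Field C] [Algebra K C] {n : ℕ} (P : MvPolynomial (Fin n) C)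
    (A : Type) [Ring A] [Algebra (MvPolynomial (Fin n) K) A] : Prop :=
  Unram (MvPolynomial (Fin n) C) (Ideal.span {P})
    (MvPolynomial (Fin n) C ⊗[MvPolynomial (Fin n) K] A)

end Pool.Agent.Helper10.BR
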