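import Pool.Agent.Helper15.BR.Defs
import Pool.Agent.Helper28.BR.Good
import Pool.Agent.Helper35.BR.Defs
import Pool.Agent.Helper47.BR.EA2
import Pool.Agent.Helper69.BR.Struct
import Pool.Agent.Helper81.BR.LR
import Pool.Agent.Helper92.BR.W4

/-!
# BR: points with good reduction at the bad places have representations over one extension
-/

set_option autoImplicit false

namespace Pool.Agent.Helper10.BR

open TensorProduct Module NumberField
open Pool.Agent.Helper4.CB Pool.Agent.Helper65.CL
open Pool.Agent.Helper15.BR Pool.Agent.Helper69.BR Pool.Agent.Helper35.BR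

/-- good reduction of the structure constants gives representations over the completion -/
theorem rep_of_good_place {M B : Type} [Field M] [NumberField M] [Ring B] [Algebra M B] {D m : ℕ}
    (b : Basis (Fin D) M B) (c : SC M D) (hc : ∀ i j, b i * b j = ∑ k, c i j k • b k)
    (hm : 0 < m) (hD : D = m ^ 2) (p : Pl M) (hg : Good p c) :
    Nonempty (B →ₐ[M] Matrix (Fin m) (Fin m) (p.adicCompletion M)) := by
  obtain ⟨g, f, h⟩ := Pool.Agent.Helper92.BR.azInt_of_good p c hg (p.adicCompletion M ⊗[M] B)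
    (b.baseChange (p.adicCompletion M)) (fun i j => by
      rw [Basis.baseChange_apply, Basis.baseChange_apply, Algebra.TensorProduct.tmul_mul_tmul,
        mul_one, hc, TensorProduct.tmul_sum]
      refine Finset.sum_congr rfl fun k _ => ?_
      rw [Basis.baseChange_apply, algebraMap_smul, TensorProduct.tmul_smul])
  obtain ⟨ρ⟩ := Pool.Agent.Helper28.BR.good_completion p h m hm (by
    rw [finrank_eq_card_basis (b.baseChange (p.adicCompletion M)), Fintype.card_fin, hD])
  exact ⟨(ρ.restrictScalars M).comp Algebra.TensorProduct.includeRight⟩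

/-- one extension `L` for the degree `m`: every point `φ` of a base with values in `M` at which the
structure constants have good reduction at all bad places gives a representation over `L` -/
theorem rep_of_good (M : Type) [Field M] [NumberField M] (m J : ℕ) (hm : 0 < m)
    (hz : ∀ l : ℕ, l.Prime → l ∣ m → ∃ z : M, IsPrimitiveRoot z l)
    (h4 : 2 ∣ m → ∃ i : M, IsPrimitiveRoot i 4) :
    ∃ (L : Type) (_ : Field L) (_ : NumberField L) (_ : Algebra M L),
      ∀ (R A : Type) [CommRing R] [Ring A] [Algebra R A] (e : Fin (m ^ 2) → A)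
        (c : SC R (m ^ 2)) (h0 : R) (κ : A →ₗ[R] (Fin (m ^ 2) → R)) (_ : Str e c h0 κ)
        (φ : R →+* M), φ h0 ≠ 0 → φ (LR c).det ≠ 0 →
        (∀ p : Pl M, Bad m.primeFactors J p → Good p (mapSC φ c)) →
        ∃ ρ : A →+* Matrix (Fin m) (Fin m) L, Over ((algebraMap M L).comp φ) ρ := by
  obtain ⟨L, iL, nL, aL, hL⟩ := Pool.Agent.Helper47.BR.alg_split M m J hm hz h4
  refine ⟨L, iL, nL, aL, ?_⟩
  intro R A _ _ _ e c h0 κ hs φ hφ0 hφd hgood
  let aφ : Algebra R M := φ.toAlgebra
  obtain ⟨b', hb'⟩ := hs.exists_basis M hφ0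
  have hmul : ∀ x y, b' x * b' y = ∑ k, mapSC φ c x y k • b' k := by
    intro x y
    rw [hb', hb', hs.mul_tmul]
    refine Finset.sum_congr rfl fun k _ => ?_
    rw [hb']
    rfl
  have hnt : Nontrivial (M ⊗[R] A) := by
    have : NeZero (m ^ 2) := ⟨(pow_pos hm 2).ne'⟩
    exact ⟨⟨b' 0, 0, b'.ne_zero 0⟩⟩
  obtain ⟨hs', hc'⟩ := Pool.Agent.Helper81.BR.simple_central_of_LR b' (mapSC φ c) hmul (by
    rw [det_LR_map φ c]
    exact hφd)
  have hfd : Module.Finite M (M ⊗[R] A) := Module.Finite.of_basis b'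
  have hrk : Module.finrank M (M ⊗[R] A) = m ^ 2 := by
    rw [finrank_eq_card_basis b', Fintype.card_fin]
  obtain ⟨ρ⟩ := hL (M ⊗[R] A) hrk (fun p hp =>
    rep_of_good_place b' _ hmul hm rfl p (hgood p hp))
  refine ⟨(ρ : (M ⊗[R] A) →+* Matrix (Fin m) (Fin m) L).comp
    (Algebra.TensorProduct.includeRight : A →ₐ[R] M ⊗[R] A).toRingHom, fun x => ?_⟩
  have h1 : (Algebra.TensorProduct.includeRight : A →ₐ[R] M ⊗[R] A).toRingHom
        (algebraMap R A x) = algebraMap M (M ⊗[R] A) (φ x) := by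
    change (1 : M) ⊗ₜ[R] algebraMap R A x = _
    rw [Algebra.TensorProduct.algebraMap_apply, Algebra.algebraMap_eq_smul_one,
      ← TensorProduct.smul_tmul, Algebra.smul_def, mul_one]
    rfl
  rw [RingHom.comp_apply, h1]
  change ρ (algebraMap M _ (φ x)) = _
  rw [AlgHom.commutes]
  rfl

/-- dual data give `Str` -/
theorem exists_str_of_dual {R A : Type} [CommRing R] [Ring A] [Algebra R A] {D : ℕ}
    {e : Fin D → A} {f : Fin D → A →ₗ[R] R} {c : SC R D} {h0 : R} (hne : h0 ≠ 0)
    (hf : ∀ a b, f a (e b) = if a = b then h0 else 0) (hx : ∀ x, h0 • x = ∑ a, f a x • e a)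
    (hc : ∀ a b, e a * e b = ∑ d, c a b d • e d) :
    ∃ κ : A →ₗ[R] (Fin D → R), Str e c h0 κ := by
  refine ⟨LinearMap.pi f, hne, hc, hx, fun a => ?_⟩
  funext b
  rw [LinearMap.pi_apply, hf]
  by_cases h : b = a
  · subst h; simp
  · rw [if_neg h, Pi.single_eq_of_ne h]

end Pool.Agent.Helper10.BR
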