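import Pool.Agent.Helper10.BR.Unr
import Pool.Agent.Helper10.BR.Rep
import Pool.Agent.Helper15.BR.Front
import Pool.Agent.Helper35.BR.End

/-!
# BR, intrinsic form over affine space
-/

set_option autoImplicit false

namespace Pool.Agent.Helper10.BR

open TensorProduct Module NumberField AlgebraicGeometry CategoryTheory
open Pool.Agent.Helper4.CB Pool.Agent.Helper65.CL Pool.Agent.Helper15
open Pool.Agent.Helper65.CB (DominatedOver)
open Pool.Agent.Helper69.CB (TriDeg vl)
open Pool.Agent.Helper15.BR Pool.Agent.Helper69.BR Pool.Agent.Helper35.BR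

/-- finitely many finite extensions are contained in one -/
theorem exists_compositum {M : Type} [Field M] [NumberField M] {ι : Type} [Finite ι] (L : ι → Type)
    [∀ i, Field (L i)] [∀ i, NumberField (L i)] [∀ i, Algebra M (L i)] :
    ∃ (L' : Type) (_ : Field L') (_ : NumberField L') (_ : Algebra M L'),
      ∀ i, Nonempty (L i →ₐ[M] L') := by
  have hfin : ∀ i, FiniteDimensional M (L i) := fun i => inferInstance
  have halg : ∀ i, Algebra.IsAlgebraic M (L i) := fun i => inferInstance
  let σ : ∀ i, L i →ₐ[M] AlgebraicClosure M := fun i => IsAlgClosed.lift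
  have h1 : ∀ i, FiniteDimensional M (σ i).fieldRange := fun i =>
    LinearMap.finiteDimensional_range (σ i).toLinearMap
  have h2 : FiniteDimensional M (⨆ i, (σ i).fieldRange : IntermediateField M (AlgebraicClosure M)) :=
    IntermediateField.finiteDimensional_iSup_of_finite
  refine ⟨(⨆ i, (σ i).fieldRange : IntermediateField M (AlgebraicClosure M)), inferInstance,
    NumberField.of_module_finite M _, inferInstance, fun i => ⟨?_⟩⟩
  exact (IntermediateField.inclusion (le_iSup (fun i => (σ i).fieldRange) i)).comp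
    (σ i).rangeRestrict

/-- a finite central simple algebra over the fraction field: structure constants -/
theorem exists_str_det {R A : Type} [CommRing R] [IsDomain R] [Ring A] [Algebra R A]
    [Module.Finite R A] (m : ℕ)
    (hc : Algebra.IsCentral (FractionRing R) (FractionRing R ⊗[R] A))
    (hs : IsSimpleRing (FractionRing R ⊗[R] A))
    (hm : Module.finrank (FractionRing R) (FractionRing R ⊗[R] A) = m ^ 2) :
    0 < m ∧ ∃ (e : Fin (m ^ 2) → A) (c : SC R (m ^ 2)) (h0 : R) (κ : A →ₗ[R] (Fin (m ^ 2) → R)),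
      Str e c h0 κ ∧ (LR c).det ≠ 0 := by
  constructor
  · rcases Nat.eq_zero_or_pos m with h0 | h0
    · exfalso
      have h3 : 0 < Module.finrank (FractionRing R) (FractionRing R ⊗[R] A) := by
        have : Nontrivial (FractionRing R ⊗[R] A) := inferInstance
        exact Module.finrank_pos
      rw [hm, h0] at h3
      simp at h3
    · exact h0
  · obtain ⟨e, c, h0, κ, hstr, b, hb⟩ := exists_str (R := R) (A := A) (F := FractionRing R) hm
    refine ⟨e, c, h0, κ, hstr, fun h => ?_⟩
    have h2 := Pool.Agent.Helper81.BR.LR_det_ne_zero (k := FractionRing R)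
      b (mapSC (algebraMap _ _) c) (fun x y => by
        rw [hb, hb, hstr.mul_tmul]
        refine Finset.sum_congr rfl fun k _ => ?_
        rw [hb]
        rfl)
    rw [det_LR_map, h, map_zero] at h2
    exact h2 rfl

/-- points with representations over one finite extension -/
theorem points (K : Type) [Field K] [NumberField K] {n r : ℕ}
    (A : Fin r → Type) [∀ i, Ring (A i)] [∀ i, Algebra (MvPolynomial (Fin n) K) (A i)]
    [∀ i, Module.Finite (MvPolynomial (Fin n) K) (A i)] (m : Fin r → ℕ)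
    (hc : ∀ j, Algebra.IsCentral (FractionRing (MvPolynomial (Fin n) K))
      (FractionRing (MvPolynomial (Fin n) K) ⊗[MvPolynomial (Fin n) K] A j))
    (hs : ∀ j, IsSimpleRing
      (FractionRing (MvPolynomial (Fin n) K) ⊗[MvPolynomial (Fin n) K] A j))
    (hm : ∀ j, Module.finrank (FractionRing (MvPolynomial (Fin n) K))
      (FractionRing (MvPolynomial (Fin n) K) ⊗[MvPolynomial (Fin n) K] A j) = m j ^ 2)
    (hP : ∀ i, ∀ P : MvPolynomial (Fin n) (AlgebraicClosure K), Irreducible P →
      TriDeg 3 P ∨ UnrAt (K := K) P (A i)) :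
    ∃ (L : Type) (_ : Field L) (_ : NumberField L) (_ : Algebra K L),
      ∀ f : MvPolynomial (Fin n) K, f ≠ 0 → ∃ φ : MvPolynomial (Fin n) K →ₐ[K] L, φ f ≠ 0 ∧
        ∀ i, ∃ ρ : A i →+* Matrix (Fin (m i)) (Fin (m i)) L,
          Over (φ : MvPolynomial (Fin n) K →+* L) ρ := by
  classical
  choose hmpos e c h0 κ hstr hdet using fun i => exists_str_det (m i) (hc i) (hs i) (hm i)
  have hpr : 4 * ∏ i, m i ≠ 0 := mul_ne_zero (by norm_num)
    (Finset.prod_ne_zero_iff.2 fun i _ => (hmpos i).ne')
  obtain ⟨M, iM, nM, aM, J, -, ⟨ζ, hζ⟩, hpt⟩ := front K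
    (Finset.univ.biUnion fun i => (m i).primeFactors)
    (fun q hq => by
      obtain ⟨i, -, hi⟩ := Finset.mem_biUnion.1 hq
      exact Nat.prime_of_mem_primeFactors hi)
    (4 * ∏ i, m i) hpr (fun i => m i ^ 2) c hdet
    (fun i P hP1 _ => (hP i P hP1).imp id (fun h => unr_of_unrAt (hstr i) P h)) 0
  have hroot : ∀ l : ℕ, l ∣ 4 * ∏ i, m i → ∃ ζ' : M, IsPrimitiveRoot ζ' l := by
    intro l hl
    obtain ⟨k, hk⟩ := hl
    exact ⟨ζ ^ k, hζ.pow (Nat.pos_of_ne_zero hpr) (by rw [hk, mul_comm])⟩
  choose L iL nL aL hL using fun i => rep_of_good M (m i) J (hmpos i)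
    (fun l _ hlm => hroot l (dvd_mul_of_dvd_right (hlm.trans
      (Finset.dvd_prod_of_mem m (Finset.mem_univ i))) 4))
    (fun _ => hroot 4 (dvd_mul_right 4 _))
  obtain ⟨L', iL', nL', aL', hL'⟩ := exists_compositum (M := M) L
  let aK : Algebra K L' := ((algebraMap M L').comp (algebraMap K M)).toAlgebra
  have htow : IsScalarTower K M L' := IsScalarTower.of_algebraMap_eq fun _ => rfl
  refine ⟨L', iL', nL', aK, fun f hf => ?_⟩
  obtain ⟨φ, hφ, hgood⟩ := hpt (f * ∏ i, (h0 i * (LR (c i)).det)) (mul_ne_zero hf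
    (Finset.prod_ne_zero_iff.2 fun i _ => mul_ne_zero (hstr i).ne (hdet i)))
  rw [map_mul, map_prod] at hφ
  have hφf := left_ne_zero_of_mul hφ
  have hφi : ∀ i, φ (h0 i) ≠ 0 ∧ φ (LR (c i)).det ≠ 0 := by
    intro i
    have h1 := Finset.prod_ne_zero_iff.1 (right_ne_zero_of_mul hφ) i (Finset.mem_univ i)
    rw [map_mul] at h1
    exact ⟨left_ne_zero_of_mul h1, right_ne_zero_of_mul h1⟩
  let φ' : MvPolynomial (Fin n) K →ₐ[K] L' := ((Algebra.ofId M L').restrictScalars K).comp φ
  have hφ' : ∀ x, φ' x = algebraMap M L' (φ x) := fun _ => rfl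
  refine ⟨φ', ?_, fun i => ?_⟩
  · rw [hφ', Ne, map_eq_zero]
    exact hφf
  · obtain ⟨ρ, hρ⟩ := hL i (MvPolynomial (Fin n) K) (A i) (e i) (c i) (h0 i) (κ i) (hstr i)
      (φ : MvPolynomial (Fin n) K →+* M) (hφi i).1 (hφi i).2 (fun p hp => hgood i p (by
        obtain ⟨l, hl, hl2⟩ := hp
        exact ⟨l, Finset.mem_biUnion.2 ⟨i, Finset.mem_univ i, hl⟩, hl2⟩))
    obtain ⟨τ⟩ := hL' i
    refine ⟨((τ : L i →+* L').mapMatrix).comp ρ, ?_⟩
    have h2 := hρ.comp (τ : L i →+* L')
    have h3 : (τ : L i →+* L').comp ((algebraMap M (L i)).comp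
        (φ : MvPolynomial (Fin n) K →+* M)) = (φ' : MvPolynomial (Fin n) K →+* L') :=
      RingHom.ext fun x => τ.commutes (φ x)
    rw [h3] at h2
    exact h2

/-- **BR, intrinsic form**: families of central simple algebras over `K(t)` which are unramified at
all irreducible polynomials of degree larger than 3 in their first variable -/
theorem t_br_intrinsic (K : Type) [Field K] [NumberField K] {n r : ℕ}
    (A : Fin r → Type) [∀ i, Ring (A i)] [∀ i, Algebra (MvPolynomial (Fin n) K) (A i)]
    [∀ i, Module.Finite (MvPolynomial (Fin n) K) (A i)] (m : Fin r → ℕ)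
    (hc : ∀ j, Algebra.IsCentral (FractionRing (MvPolynomial (Fin n) K))
      (FractionRing (MvPolynomial (Fin n) K) ⊗[MvPolynomial (Fin n) K] A j))
    (hs : ∀ j, IsSimpleRing
      (FractionRing (MvPolynomial (Fin n) K) ⊗[MvPolynomial (Fin n) K] A j))
    (hm : ∀ j, Module.finrank (FractionRing (MvPolynomial (Fin n) K))
      (FractionRing (MvPolynomial (Fin n) K) ⊗[MvPolynomial (Fin n) K] A j) = m j ^ 2)
    (hP : ∀ i, ∀ P : MvPolynomial (Fin n) (AlgebraicClosure K), Irreducible P →
      TriDeg 3 P ∨ UnrAt (K := K) P (A i)) :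
    ∃ δ : MvPolynomial (Fin n) K, δ ≠ 0 ∧
      ∀ (X : Scheme.{0}) (s : X ⟶ Spec (CommRingCat.of K)),
      DominatedOver K X
        (Spec (CommRingCat.of (Localization.Away
          (algebraMap (MvPolynomial (Fin n) K) (HomRing (MvPolynomial (Fin n) K) A m) δ)))) s
        (Spec.map (CommRingCat.ofHom
          (algebraMap K (Localization.Away
            (algebraMap (MvPolynomial (Fin n) K) (HomRing (MvPolynomial (Fin n) K) A m) δ))))) →
      PotentiallyDense K X s := by
  obtain ⟨L, iL, nL, aL, hpt⟩ := points K A m hc hs hm hP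
  exact end_br K A m hc hs hm L hpt

end Pool.Agent.Helper10.BR
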