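import Pool.Agent.Helper10.BR.Defs
import Pool.Agent.Helper69.BR.Struct
import Pool.Agent.Helper69.BR.UnrAz2

/-!
# BR, front end: the intrinsic hypothesis in terms of structure constants
-/

set_option autoImplicit false

namespace Pool.Agent.Helper10.BR

open TensorProduct Module Pool.Agent.Helper15.BR Pool.Agent.Helper69.BR

/-- structure constants under base change -/
theorem str_baseChange {R0 R A : Type} [CommRing R0] [CommRing R] [Algebra R0 R] [Ring A]
    [Algebra R0 A] {D : ℕ} {e : Fin D → A} {c : SC R0 D} {h0 : R0}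
    {κ : A →ₗ[R0] (Fin D → R0)} (hs : Str e c h0 κ) (h : algebraMap R0 R h0 ≠ 0) :
    ∃ κ' : R ⊗[R0] A →ₗ[R] (Fin D → R),
      Str (fun a => (1 : R) ⊗ₜ[R0] e a) (mapSC (algebraMap R0 R) c) (algebraMap R0 R h0) κ' := by
  classical
  refine ⟨(TensorProduct.piScalarRight R0 R R (Fin D)).toLinearMap ∘ₗ
    LinearMap.baseChange R κ, h, fun a b => hs.mul_tmul R a b, fun x => ?_, fun a => ?_⟩
  · induction x with
    | zero => simp
    | add x y hx hy =>
      rw [smul_add, hx, hy, ← Finset.sum_add_distrib]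
      refine Finset.sum_congr rfl fun d _ => ?_
      rw [map_add, Pi.add_apply, add_smul]
    | tmul r a =>
      rw [algebraMap_smul, ← TensorProduct.tmul_smul, hs.coord, TensorProduct.tmul_sum]
      refine Finset.sum_congr rfl fun d _ => ?_
      simp [TensorProduct.smul_tmul', TensorProduct.tmul_smul]
  · funext d
    simp only [LinearMap.comp_apply, LinearMap.baseChange_tmul, hs.basis]
    by_cases hd : d = a
    · subst hd
      simp [Algebra.smul_def]
    · simp [hd]

/-- **W5**, general form -/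
theorem unr_of_unram {R : Type} [CommRing R] [IsDomain R] {P : R}
    {A : Type} [Ring A] [Algebra R A] {D : ℕ} {e : Fin D → A}
    {c : SC R D} {h0 : R} {κ : A →ₗ[R] (Fin D → R)} (hs : Str e c h0 κ)
    (hP : Unram R (Ideal.span {P}) A) : Unr P c := by
  obtain ⟨O, F, B, iO, iF, iB, aO, aF, aOF, aB, hp, htow, hloc, hfr, hAz, ⟨ψ⟩⟩ := hP
  obtain ⟨b, hb⟩ := hs.exists_basis F (by
    rw [Ne, map_eq_zero_iff _ (IsFractionRing.injective R _)]
    exact hs.ne)
  refine unr_of_azumaya (R := R) (O := O) (F := F) (B := B) b (fun i j => ?_) ψ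
  rw [hb, hb, hs.mul_tmul]
  refine Finset.sum_congr rfl fun k _ => ?_
  rw [hb]

attribute [local instance] MvPolynomial.algebraMvPolynomial in
/-- **W5** -/
theorem unr_of_unrAt {K C : Type} [Field K] [Field C] [Algebra K C] {n : ℕ}
    {A : Type} [Ring A] [Algebra (MvPolynomial (Fin n) K) A] {D : ℕ} {e : Fin D → A}
    {c : SC (MvPolynomial (Fin n) K) D} {h0 : MvPolynomial (Fin n) K}
    {κ : A →ₗ[MvPolynomial (Fin n) K] (Fin D → MvPolynomial (Fin n) K)} (hs : Str e c h0 κ)
    (P : MvPolynomial (Fin n) C) (hP : UnrAt (K := K) P A) :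
    Unr P (mapSC (MvPolynomial.map (algebraMap K C)) c) := by
  obtain ⟨κ', hs'⟩ := str_baseChange (R := MvPolynomial (Fin n) C) hs (by
    change MvPolynomial.map (algebraMap K C) h0 ≠ 0
    rw [Ne, map_eq_zero_iff _ (MvPolynomial.map_injective _ (algebraMap K C).injective)]
    exact hs.ne)
  exact unr_of_unram hs' hP

end Pool.Agent.Helper10.BR
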